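import Pool.Agent.Helper39.TC.Lin
import Pool.Agent.HC.Defs
import Pool.Agent.HC.Lv2D

/-! A clique minor of a binary matroid as a spanning clique minor of its configuration. -/

namespace Pool.Agent.Helper39.HCI

open Finset Module
open Pool.Agent.Helper39.TC (cf cf_apply span_cf minor mem_minor)
open Pool.Agent.HC (F2 pr hat IsQ)

lemma f2_cases (a : F2) : a = 0 ∨ a = 1 := by
  revert a; decide

lemma f2_add_self (a : F2) : a + a = 0 := by
  revert a; decide

lemma mem_span_finset_f2 {V : Type} [AddCommGroup V] [Module F2 V] [DecidableEq V]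
    (C : Finset V) (v : V) (hv : v ∈ Submodule.span F2 (C : Set V)) :
    ∃ T ⊆ C, v = ∑ x ∈ T, x := by
  obtain ⟨f, hf, rfl⟩ := Submodule.mem_span_finset.1 hv
  refine ⟨C.filter fun x => f x ≠ 0, Finset.filter_subset _ _, ?_⟩
  rw [Finset.sum_filter]
  refine Finset.sum_congr rfl fun x _ => ?_
  rcases f2_cases (f x) with h | h
  · simp [h]
  · simp [h]

lemma ext_basis {V : Type} [AddCommGroup V] [Module F2 V] [DecidableEq V] (S : Finset V)
    (R : Submodule F2 V) (C1 : Finset V) (hC1 : C1 ⊆ S)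
    (h1 : ∀ T ⊆ C1, ∑ x ∈ T, x ∈ R → T = ∅) :
    ∃ C, C1 ⊆ C ∧ C ⊆ S ∧ (∀ T ⊆ C, ∑ x ∈ T, x ∈ R → T = ∅) ∧
      ∀ x ∈ S, x ∈ R ⊔ Submodule.span F2 (C : Set V) := by
  classical
  let P : Finset (Finset V) := S.powerset.filter fun C => C1 ⊆ C ∧
    ∀ T ⊆ C, ∑ x ∈ T, x ∈ R → T = ∅
  have hP : P.Nonempty := ⟨C1, Finset.mem_filter.2 ⟨Finset.mem_powerset.2 hC1,
    Finset.Subset.refl _, h1⟩⟩
  obtain ⟨C, hC, hmax⟩ := Finset.exists_max_image P Finset.card hP
  obtain ⟨hCS, hCC, hCi⟩ := Finset.mem_filter.1 hC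
  rw [Finset.mem_powerset] at hCS
  refine ⟨C, hCC, hCS, hCi, fun x hx => ?_⟩
  by_contra hnot
  have hxC : x ∉ C := fun h => hnot (Submodule.mem_sup_right (Submodule.subset_span h))
  have hin : insert x C ∈ P := by
    refine Finset.mem_filter.2 ⟨Finset.mem_powerset.2 (Finset.insert_subset hx hCS),
      hCC.trans (Finset.subset_insert _ _), fun T hT hTR => ?_⟩
    by_cases hxT : x ∈ T
    · exfalso
      apply hnot
      have h2 : T.erase x ⊆ C := by
        intro y hy
        rcases Finset.mem_insert.1 (hT (Finset.mem_of_mem_erase hy)) with h | h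
        · exact absurd h (Finset.ne_of_mem_erase hy)
        · exact h
      have h3 : x = (∑ y ∈ T, y) - ∑ y ∈ T.erase x, y := by
        rw [← Finset.add_sum_erase T (fun y => y) hxT]
        abel
      rw [h3]
      refine Submodule.sub_mem _ (Submodule.mem_sup_left hTR) (Submodule.mem_sup_right ?_)
      exact Submodule.sum_mem _ fun y hy => Submodule.subset_span (h2 hy)
    · apply hCi T _ hTR
      intro y hy
      rcases Finset.mem_insert.1 (hT hy) with h | h
      · exact absurd (h ▸ hy) hxT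
      · exact h
  have := hmax _ hin
  rw [Finset.card_insert_of_notMem hxC] at this
  omega

theorem exists_isQ {n N m' : ℕ} (hN : 2 ≤ N) (W : Submodule F2 (Fin n → F2))
    [DecidableEq (W →ₗ[F2] F2)] (f : Fin m' ↪ Fin n) (C0 : Set (Fin n))
    (h : Pool.Agent.Helper39.TC.IsClique N (minor W f C0)) :
    ∃ (C : Finset (W →ₗ[F2] F2)) (g : Fin N → (W →ₗ[F2] F2))
      (q : Fin N → Fin N → (W →ₗ[F2] F2)),
      IsQ ⊥ (Finset.univ.image (cf W)) C g q := by
  classical
  obtain ⟨e, he⟩ := h
  let z : Fin N := ⟨0, by omega⟩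
  have hzlt : ∀ i : Fin N, i ≠ z → z < i := by
    intro i hi
    rw [Fin.lt_def]
    have : (i : ℕ) ≠ 0 := fun h => hi (Fin.ext h)
    show 0 < (i : ℕ)
    omega
  -- the element of a pair
  let x : ∀ i j : Fin N, i < j → Fin n := fun i j hij => f (e.symm ⟨(i, j), hij⟩)
  let q : Fin N → Fin N → (W →ₗ[F2] F2) := fun i j =>
    if h : i < j then cf W (x i j h) else if h : j < i then cf W (x j i h) else 0
  have hqsymm : ∀ i j, q i j = q j i := by
    intro i j
    simp only [q]
    rcases lt_trichotomy i j with h | h | h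
    · rw [dif_pos h, dif_neg h.not_gt, dif_pos h]
    · subst h; rfl
    · rw [dif_neg h.not_gt, dif_pos h, dif_pos h]
  have hqlt : ∀ i j (h : i < j), q i j = cf W (x i j h) := by
    intro i j h
    simp only [q]
    rw [dif_pos h]
  have hqz : q z z = 0 := by simp [q]
  let g : Fin N → (W →ₗ[F2] F2) := fun i => q z i
  let A0 : Submodule F2 (W →ₗ[F2] F2) := Submodule.span F2 (cf W '' C0)
  -- values of the functionals
  have hval1 : ∀ u : W, (∀ ψ ∈ A0, ψ u = 0) → ∃ p : Fin N → F2, ∀ i j, i ≠ j →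
      q i j u = p i + p j := by
    intro u hu
    have hmem : (fun j => (u : Fin n → F2) (f j)) ∈ minor W f C0 :=
      ⟨u, u.2, fun c hc => hu _ (Submodule.subset_span ⟨c, hc, rfl⟩), fun j => rfl⟩
    obtain ⟨p, hp⟩ := (he _).1 hmem
    refine ⟨p, fun i j hij => ?_⟩
    have key : ∀ i j (h : i < j), q i j u = p i + p j := by
      intro i j h
      rw [hqlt i j h, cf_apply]
      have := hp (e.symm ⟨(i, j), h⟩)
      rw [Equiv.apply_symm_apply] at this
      simp only at this
      show (u : Fin n → F2) (f (e.symm ⟨(i, j), h⟩)) = _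
      rw [this, CharTwo.sub_eq_add, add_comm]
    rcases lt_or_gt_of_ne hij with h | h
    · exact key i j h
    · rw [hqsymm, key j i h, add_comm]
  have hval2 : ∀ p : Fin N → F2, ∃ u : W, (∀ ψ ∈ A0, ψ u = 0) ∧ ∀ i j, i ≠ j →
      q i j u = p i + p j := by
    intro p
    have hmem : (fun y => p (e y).1.2 - p (e y).1.1) ∈ minor W f C0 := (he _).2 ⟨p, fun y => rfl⟩
    obtain ⟨u, huW, hu0, hu⟩ := mem_minor.1 hmem
    refine ⟨⟨u, huW⟩, ?_, fun i j hij => ?_⟩
    · intro ψ hψ
      refine Submodule.span_induction ?_ ?_ ?_ ?_ hψ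
      · rintro _ ⟨c, hc, rfl⟩
        exact hu0 c hc
      · rfl
      · intro a b _ _ ha hb
        rw [LinearMap.add_apply, ha, hb, add_zero]
      · intro r a _ ha
        rw [LinearMap.smul_apply, ha, smul_zero]
    · have key : ∀ i j (h : i < j), q i j ⟨u, huW⟩ = p i + p j := by
        intro i j h
        rw [hqlt i j h, cf_apply]
        have := hu (e.symm ⟨(i, j), h⟩)
        rw [Equiv.apply_symm_apply] at this
        show u (f (e.symm ⟨(i, j), h⟩)) = _
        rw [← this, CharTwo.sub_eq_add, add_comm]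
      rcases lt_or_gt_of_ne hij with h | h
      · exact key i j h
      · rw [hqsymm, key j i h, add_comm]
  -- annihilator
  have hann : ∀ ψ : W →ₗ[F2] F2, (∀ u : W, (∀ φ ∈ A0, φ u = 0) → ψ u = 0) → ψ ∈ A0 := by
    intro ψ hψ
    have h1 : ψ ∈ Submodule.span F2 (Set.range fun c : C0 => cf W (c : Fin n)) := by
      refine mem_span_of_iInf_ker_le_ker ?_
      intro u hu
      rw [LinearMap.mem_ker]
      apply hψ
      intro φ hφ
      refine Submodule.span_induction ?_ ?_ ?_ ?_ hφ
      · rintro _ ⟨c, hc, rfl⟩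
        exact LinearMap.mem_ker.1 ((Submodule.mem_iInf _).1 hu ⟨c, hc⟩)
      · rfl
      · intro a b _ _ ha hb
        rw [LinearMap.add_apply, ha, hb, add_zero]
      · intro r a _ ha
        rw [LinearMap.smul_apply, ha, smul_zero]
    refine Submodule.span_mono ?_ h1
    rintro _ ⟨c, rfl⟩
    exact ⟨c, c.2, rfl⟩
  have hgval : ∀ (u : W) (p : Fin N → F2), (∀ i j, i ≠ j → q i j u = p i + p j) → ∀ i,
      g i u = p z + p i := by
    intro u p hp i
    by_cases hi : i = z
    · subst hi
      show q z z u = _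
      rw [hqz, LinearMap.zero_apply, f2_add_self]
    · exact hp z i (Ne.symm hi)
  -- independence modulo `A0`
  have hind0 : ∀ T : Finset (Fin N), (∑ i ∈ T, g i) ∈ A0 → ∀ i ∈ T, i = z := by
    intro T hT i hi
    by_contra hiz
    obtain ⟨u, hu0, hu⟩ := hval2 (Pi.single i 1)
    have h1 := hann
    have h2 : (∑ i ∈ T, g i) u = 0 := by
      have := hu0 _ hT
      exact this
    rw [LinearMap.sum_apply] at h2
    have h3 : ∑ j ∈ T, g j u = 1 := by
      rw [Finset.sum_eq_single i]
      · rw [hgval u _ hu i, Pi.single_eq_of_ne (Ne.symm hiz), Pi.single_eq_same, zero_add]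
      · intro j _ hj
        rw [hgval u _ hu j, Pi.single_eq_of_ne (Ne.symm hiz), Pi.single_eq_of_ne hj, zero_add]
      · intro h; exact absurd hi h
    rw [h3] at h2
    exact one_ne_zero h2
  have hT0 : ∀ T : Finset (Fin N), (∑ i ∈ T, g i) ∈ A0 → ∑ i ∈ T, g i = 0 := by
    intro T hT
    refine Finset.sum_eq_zero fun i hi => ?_
    rw [hind0 T hT i hi]
    exact hqz
  -- the span of the vertex vectors
  let G : Submodule F2 (W →ₗ[F2] F2) := Submodule.span F2 (Set.range g)
  have hG : ∀ v ∈ G, ∃ T : Finset (Fin N), Even T.card ∧ v = ∑ i ∈ T, g i := by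
    intro v hv
    have h1 : ∃ T : Finset (Fin N), v = ∑ i ∈ T, g i := by
      obtain ⟨c, hc⟩ := (Submodule.mem_span_range_iff_exists_fun F2).1 hv
      refine ⟨Finset.univ.filter fun i => c i ≠ 0, ?_⟩
      rw [← hc, Finset.sum_filter]
      refine Finset.sum_congr rfl fun i _ => ?_
      rcases f2_cases (c i) with h | h
      · simp [h]
      · simp [h]
    obtain ⟨T, rfl⟩ := h1
    rcases Nat.even_or_odd T.card with h | h
    · exact ⟨T, h, rfl⟩
    · by_cases hz : z ∈ T
      · refine ⟨T.erase z, ?_, ?_⟩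
        · rw [Finset.card_erase_of_mem hz]
          exact Nat.Odd.sub_odd h odd_one
        · rw [← Finset.add_sum_erase T g hz]
          have : g z = 0 := hqz
          rw [this, zero_add]
      · refine ⟨insert z T, ?_, ?_⟩
        · rw [Finset.card_insert_of_notMem hz]
          exact h.add_odd odd_one
        · rw [Finset.sum_insert hz]
          have : g z = 0 := hqz
          rw [this, zero_add]
  -- a basis of `A0` inside the contracted elements
  let S0 : Finset (W →ₗ[F2] F2) := (Finset.univ.filter fun x : Fin n => x ∈ C0).image (cf W)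
  obtain ⟨Ca, -, hCaS, hCai, hCas⟩ := ext_basis S0 ⊥ ∅ (Finset.empty_subset _) (by
    intro T hT _
    exact Finset.subset_empty.1 hT)
  have hCa0 : A0 ≤ Submodule.span F2 (Ca : Set (W →ₗ[F2] F2)) := by
    rw [Submodule.span_le]
    rintro _ ⟨x, hx, rfl⟩
    have := hCas (cf W x) (Finset.mem_image.2 ⟨x, Finset.mem_filter.2 ⟨Finset.mem_univ _, hx⟩,
      rfl⟩)
    rwa [bot_sup_eq] at this
  have hCaA : ∀ T ⊆ Ca, ∑ y ∈ T, y ∈ A0 := by
    intro T hT
    refine Submodule.sum_mem _ fun y hy => ?_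
    obtain ⟨x, hx, rfl⟩ := Finset.mem_image.1 (hCaS (hT hy))
    exact Submodule.subset_span ⟨x, (Finset.mem_filter.1 hx).2, rfl⟩
  have hCaU : Ca ⊆ Finset.univ.image (cf W) := by
    intro y hy
    obtain ⟨x, -, rfl⟩ := Finset.mem_image.1 (hCaS hy)
    exact Finset.mem_image_of_mem _ (Finset.mem_univ _)
  obtain ⟨C, hCaC, hCS, hCi, hCs⟩ := ext_basis (Finset.univ.image (cf W)) G Ca hCaU (by
    intro T hT hTG
    obtain ⟨T', -, hT'⟩ := hG _ hTG
    apply hCai T hT
    rw [Submodule.mem_bot, hT']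
    apply hT0
    rw [← hT']
    exact hCaA T hT)
  have hAC : A0 ≤ Submodule.span F2 (C : Set (W →ₗ[F2] F2)) :=
    hCa0.trans (Submodule.span_mono (by exact_mod_cast hCaC))
  have hhat : hat (⊥ : Submodule F2 (W →ₗ[F2] F2)) (C : Set (W →ₗ[F2] F2)) =
      Submodule.span F2 (C : Set (W →ₗ[F2] F2)) := by
    unfold hat
    rw [bot_sup_eq]
  refine ⟨C, g, q, ?_⟩
  constructor
  · exact hCS
  · intro T hT h0
    apply hCi T hT
    rw [Submodule.mem_bot] at h0
    rw [h0]
    exact G.zero_mem
  · intro T hTe hT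
    rw [hhat] at hT
    obtain ⟨T', hT'C, hT'⟩ := mem_span_finset_f2 C _ hT
    have h1 : T' = ∅ := by
      apply hCi T' hT'C
      rw [← hT']
      exact Submodule.sum_mem _ fun i _ => Submodule.subset_span ⟨i, rfl⟩
    rw [h1, Finset.sum_empty] at hT'
    have h2 : ∀ i ∈ T, i = z := hind0 T (by rw [hT']; exact A0.zero_mem)
    rcases Finset.subset_singleton_iff.1 (fun i hi => Finset.mem_singleton.2 (h2 i hi) :
      T ⊆ {z}) with h3 | h3
    · exact h3
    · rw [h3, Finset.card_singleton] at hTe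
      exact absurd hTe (by decide)
  · intro i j hij
    rcases lt_or_gt_of_ne hij with h | h
    · rw [hqlt i j h]
      exact Finset.mem_image_of_mem _ (Finset.mem_univ _)
    · rw [hqsymm, hqlt j i h]
      exact Finset.mem_image_of_mem _ (Finset.mem_univ _)
  · exact hqsymm
  · intro i j hij
    rw [hhat]
    apply hAC
    apply hann
    intro u hu
    obtain ⟨p, hp⟩ := hval1 u hu
    rw [LinearMap.add_apply, LinearMap.add_apply, hp i j hij, hgval u p hp i, hgval u p hp j]
    have : ∀ a b c : F2, a + b + (c + a + (c + b)) = 0 := by decide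
    exact this _ _ _
  · intro y hy
    rw [hhat]
    obtain ⟨γ, hγ, c, hc, hyc⟩ := Submodule.mem_sup.1 (hCs y hy)
    obtain ⟨T, hTe, hT⟩ := hG γ hγ
    refine ⟨T, hTe, ?_⟩
    rw [← hyc, ← hT]
    have : γ + c + γ = c := by
      rw [add_comm γ c, add_assoc]
      have : γ + γ = 0 := by
        ext u
        rw [LinearMap.add_apply, f2_add_self]
        rfl
      rw [this, add_zero]
    rw [this]
    exact hc

end Pool.Agent.Helper39.HCI
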