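import Pool.Agent.Helper39.TC.Defs

/-! The binary matroids `O_m`. -/

namespace Pool.Agent.Helper39.HCI

open Pool.Agent.Helper39.TC

/-- `U` is the binary matroid `O_m`: up to a bijection `g` of the ground set with the edges of the
complete graph on `m` vertices and one further element, the elements are the sums `p i + p j` of
two vertices and, for four distinct vertices `a, b, c, d`, the sum `p a + p b + p c + p d`. -/
def IsO (m : ℕ) {n : ℕ} (U : Submodule (ZMod 2) (Fin n → ZMod 2)) : Prop :=
  ∃ (g : Fin n ≃ Option {p : Fin m × Fin m // p.1 < p.2}) (a b c d : Fin m),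
    a < b ∧ b < c ∧ c < d ∧
    ∀ u : Fin n → ZMod 2, u ∈ U ↔ ∃ p : Fin m → ZMod 2, ∀ x, u x =
      match g x with
      | some e => p e.1.1 + p e.1.2
      | none => p a + p b + p c + p d

end Pool.Agent.Helper39.HCI
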