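import Pool.Agent.Helper39.TC.Rank

/-! Ranks in the dual of a represented matroid; the dual of a highly connected matroid. -/

namespace Pool.Agent.Helper39.TC

open Finset

variable {F : Type} [Field F]

/-- the dot product as a map to the dual space -/
def dotMap (α : Type) [Fintype α] : (α → F) →ₗ[F] Module.Dual F (α → F) where
  toFun v :=
    { toFun := fun u => ∑ i, u i * v i
      map_add' := by intro a b; simp [add_mul, Finset.sum_add_distrib]
      map_smul' := by
        intro c a
        simp only [Pi.smul_apply, smul_eq_mul, RingHom.id_apply, Finset.mul_sum, mul_assoc] }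
  map_add' := by
    intro a b; ext u; simp [mul_add, Finset.sum_add_distrib]
  map_smul' := by
    intro c a; ext u
    simp [mul_left_comm, Finset.mul_sum]

lemma dotMap_apply (α : Type) [Fintype α] (v u : α → F) : dotMap α v u = ∑ i, u i * v i := rfl

lemma dotMap_injective (α : Type) [Fintype α] [DecidableEq α] :
    Function.Injective (dotMap (F := F) α) := by
  intro a b h
  funext i
  have := congrArg (fun φ => φ (Pi.single i 1)) h
  simp only [dotMap_apply] at this
  rw [Finset.sum_eq_single i, Finset.sum_eq_single i] at this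
  · simpa using this
  · intro j _ hj; simp [Pi.single_eq_of_ne hj]
  · intro h; exact absurd (Finset.mem_univ _) h
  · intro j _ hj; simp [Pi.single_eq_of_ne hj]
  · intro h; exact absurd (Finset.mem_univ _) h

lemma finrank_orth (α : Type) [Fintype α] [DecidableEq α] (A B : Submodule F (α → F))
    (h : ∀ a ∈ A, ∀ b ∈ B, ∑ i, b i * a i = 0) :
    Module.finrank F A + Module.finrank F B ≤ Fintype.card α := by
  have h1 : A.map (dotMap α) ≤ B.dualAnnihilator := by
    rintro _ ⟨a, ha, rfl⟩
    rw [Submodule.mem_dualAnnihilator]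
    intro b hb
    exact h a ha b hb
  have h2 := Submodule.finrank_mono h1
  have h3 := (Submodule.equivMapOfInjective _ (dotMap_injective (F := F) α) A).finrank_eq
  have h4 := Subspace.finrank_add_finrank_dualAnnihilator_eq B
  rw [Module.finrank_fintype_fun_eq_card] at h4
  omega

/-- the members of `U` vanishing outside `X`, restricted to `X` -/
def inn {n : ℕ} (U : Submodule F (Fin n → F)) (X : Finset (Fin n)) : Submodule F (X → F) :=
  (U ⊓ LinearMap.ker (rst Xᶜ : (Fin n → F) →ₗ[F] ((Xᶜ : Finset (Fin n)) → F))).map (rst X)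

lemma finrank_inn {n : ℕ} (U : Submodule F (Fin n → F)) (X : Finset (Fin n)) :
    Module.finrank F U ≤ Module.finrank F (inn U X) + rk U Xᶜ := by
  have h1 := LinearMap.finrank_range_add_finrank_ker
    ((rst Xᶜ : (Fin n → F) →ₗ[F] ((Xᶜ : Finset (Fin n)) → F)).domRestrict U)
  have h2 : Module.finrank F (LinearMap.range
      ((rst Xᶜ : (Fin n → F) →ₗ[F] ((Xᶜ : Finset (Fin n)) → F)).domRestrict U)) = rk U Xᶜ := by
    rw [rk_def, LinearMap.range_domRestrict]
  have h3 : Module.finrank F (LinearMap.ker
      ((rst Xᶜ : (Fin n → F) →ₗ[F] ((Xᶜ : Finset (Fin n)) → F)).domRestrict U)) ≤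
      Module.finrank F (inn U X) := by
    let g : LinearMap.ker
        ((rst Xᶜ : (Fin n → F) →ₗ[F] ((Xᶜ : Finset (Fin n)) → F)).domRestrict U) →ₗ[F]
        inn U X :=
      { toFun := fun u => ⟨rst X ((u : U) : Fin n → F),
          Submodule.mem_map_of_mem ⟨u.1.2, LinearMap.mem_ker.1 u.2⟩⟩
        map_add' := fun _ _ => rfl
        map_smul' := fun _ _ => rfl }
    refine LinearMap.finrank_le_finrank_of_injective (f := g) ?_
    intro a b h
    have h5 : rst X ((a : U) : Fin n → F) = rst X ((b : U) : Fin n → F) := congrArg Subtype.val h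
    apply Subtype.ext
    apply Subtype.ext
    funext i
    by_cases hi : i ∈ X
    · exact congrFun h5 ⟨i, hi⟩
    · have ha := congrFun (LinearMap.mem_ker.1 a.2) ⟨i, Finset.mem_compl.2 hi⟩
      have hb := congrFun (LinearMap.mem_ker.1 b.2) ⟨i, Finset.mem_compl.2 hi⟩
      exact (ha : ((a : U) : Fin n → F) i = 0).trans (hb : ((b : U) : Fin n → F) i = 0).symm
  omega

lemma rk_dual_le {n : ℕ} (U : Submodule F (Fin n → F)) (X : Finset (Fin n)) :
    rk (dual U) X + Module.finrank F U ≤ X.card + rk U Xᶜ := by
  classical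
  have h1 := finrank_inn U X
  have h2 := finrank_orth X ((dual U).map (rst X)) (inn U X) (by
    rintro _ ⟨a, ha, rfl⟩ _ ⟨b, ⟨hb1, hb2⟩, rfl⟩
    have h3 := ha b hb1
    rw [← h3]
    have h4 : ∑ i ∈ X, b i * a i = ∑ i, b i * a i := by
      refine Finset.sum_subset (Finset.subset_univ X) fun i _ hi => ?_
      have h5 : b i = 0 := congrFun (LinearMap.mem_ker.1 hb2) ⟨i, Finset.mem_compl.2 hi⟩
      rw [h5, zero_mul]
    rw [← h4, ← Finset.sum_coe_sort X (fun i => b i * a i)]
    rfl)
  rw [← rk_def, Fintype.card_coe] at h2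
  omega

/-- rank in the dual -/
theorem rk_dual {n : ℕ} (U : Submodule F (Fin n → F)) (X : Finset (Fin n)) :
    rk (dual U) X + Module.finrank F U = X.card + rk U Xᶜ := by
  have h1 := rk_dual_le U X
  have h2 := rk_dual_le (dual U) Xᶜ
  rw [dual_dual, compl_compl] at h2
  have h3 := finrank_dual U
  have h4 := Finset.card_compl X
  have h5 := Finset.card_le_univ X
  rw [Fintype.card_fin] at h4 h5
  omega

/-- the dual of a `k`-connected matroid is `k`-connected -/
theorem tutteConn_dual {n k : ℕ} {U : Submodule F (Fin n → F)} (h : TutteConn k U) :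
    TutteConn k (dual U) := by
  intro ℓ hℓ X h1 h2
  have h3 := h ℓ hℓ X h1 h2
  have e1 := rk_dual U X
  have e2 := rk_dual U Xᶜ
  rw [compl_compl] at e2
  have e3 := finrank_dual U
  have e4 := Finset.card_compl X
  have e5 := Finset.card_le_univ X
  rw [Fintype.card_fin] at e4 e5
  rw [rk_univ] at h3 ⊢
  omega

end Pool.Agent.Helper39.TC
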