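import Pool.Agent.Helper39.TC.Lin
import Pool.Agent.HC.Defs

/-! Graphic configurations give frame representations. -/

namespace Pool.Agent.Helper39.HCI

open Finset Module
open Pool.Agent.Helper39.TC (cf cf_apply span_cf rowSpace IsFrame)
open Pool.Agent.HC (F2 pr IsRep Graphic hat)

theorem isFrame_of_graphic {n : ℕ} (W : Submodule F2 (Fin n → F2))
    (h : Graphic (⊥ : Submodule F2 (W →ₗ[F2] F2)) (Set.range (cf W))) : IsFrame W := by
  classical
  obtain ⟨ι, _, _, φ, hker, hedge, hinj⟩ := h
  have htop : hat (⊥ : Submodule F2 (W →ₗ[F2] F2)) (Set.range (cf W)) = ⊤ := by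
    unfold hat
    rw [span_cf, bot_sup_eq]
  let e : Fin (Fintype.card ι) ≃ ι := (Fintype.equivFin ι).symm
  -- the row of a vertex is a member of `W`
  have hrow : ∀ i : ι, ∃ w : W, ∀ ψ : W →ₗ[F2] F2, ψ w = φ ψ i := by
    intro i
    let Λ : Module.Dual F2 (Module.Dual F2 W) := (LinearMap.proj i) ∘ₗ φ
    refine ⟨(Module.evalEquiv F2 W).symm Λ, fun ψ => ?_⟩
    have h1 : Module.evalEquiv F2 W ((Module.evalEquiv F2 W).symm Λ) = Λ :=
      LinearEquiv.apply_symm_apply _ _
    have h2 := congrArg (fun f => f ψ) h1
    exact h2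
  choose w hw using hrow
  refine ⟨Fintype.card ι, fun i x => φ (cf W x) (e i), ?_, ?_⟩
  · unfold rowSpace
    have hAi : ∀ i, (fun x => φ (cf W x) (e i)) = ((w (e i) : W) : Fin n → F2) := by
      intro i
      funext x
      rw [← hw (e i) (cf W x), cf_apply]
    have hmap : Submodule.span F2 (Set.range fun (i : Fin (Fintype.card ι)) =>
        (fun x => φ (cf W x) (e i))) =
        (Submodule.span F2 (Set.range fun (i : Fin (Fintype.card ι)) => w (e i))).map
          W.subtype := by
      rw [Submodule.map_span]
      congr 1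
      ext y
      constructor
      · rintro ⟨i, rfl⟩
        exact ⟨w (e i), ⟨i, rfl⟩, (hAi i).symm⟩
      · rintro ⟨_, ⟨i, rfl⟩, rfl⟩
        exact ⟨i, hAi i⟩
    have htop2 : Submodule.span F2 (Set.range fun (i : Fin (Fintype.card ι)) => w (e i)) = ⊤ := by
      by_contra hne
      obtain ⟨ψ, hψ0, hψ⟩ := Submodule.exists_le_ker_of_lt_top _ (lt_top_iff_ne_top.2 hne)
      apply hψ0
      have h1 : φ ψ = 0 := by
        funext i
        rw [← hw i ψ]
        have : w i ∈ Submodule.span F2
            (Set.range fun (i : Fin (Fintype.card ι)) => w (e i)) :=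
          Submodule.subset_span ⟨e.symm i, by simp⟩
        exact hψ this
      have h2 := hinj ψ (by rw [htop]; exact Submodule.mem_top) h1
      exact (Submodule.mem_bot F2).1 h2
    exact (hmap.trans (by rw [htop2, Submodule.map_top, Submodule.range_subtype]))
  · intro x
    rcases hedge (cf W x) ⟨x, rfl⟩ with h0 | ⟨u, v, -, huv⟩
    · have : {i | (fun (i : Fin (Fintype.card ι)) (x : Fin n) => φ (cf W x) (e i)) i x ≠ 0} =
          ∅ := by
        ext i
        simp [h0]
      rw [this]
      simp
    · have hsub : {i | (fun (i : Fin (Fintype.card ι)) (x : Fin n) =>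
          φ (cf W x) (e i)) i x ≠ 0} ⊆ ({e.symm u, e.symm v} : Finset _) := by
        intro i hi
        simp only [Set.mem_setOf_eq, huv, pr, Pi.add_apply] at hi
        simp only [Finset.coe_insert, Finset.coe_singleton, Set.mem_insert_iff,
          Set.mem_singleton_iff]
        by_contra hcon
        push Not at hcon
        apply hi
        rw [Pi.single_eq_of_ne (fun h => hcon.1 (by rw [← h]; simp)),
          Pi.single_eq_of_ne (fun h => hcon.2 (by rw [← h]; simp)), add_zero]
      refine (Set.ncard_le_ncard hsub (Finset.finite_toSet _)).trans ?_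
      rw [Set.ncard_coe_finset]
      exact Finset.card_le_two

end Pool.Agent.Helper39.HCI
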