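import Pool.Agent.Helper39.TC.Clique
import Pool.Agent.Helper39.HCI.Clq
import Pool.Agent.Helper39.HCI.Defs

/-! An `O_m`-minor of the configuration gives an `O_m`-minor of the matroid. -/

namespace Pool.Agent.Helper39.HCI

open Finset Module
open Pool.Agent.Helper39.TC (cf cf_apply span_cf minor mem_minor exists_value)
open Pool.Agent.HC (F2 pr hat HasO)

lemma v_add_self {V : Type} [AddCommGroup V] [Module F2 V] (v : V) : v + v = 0 := by
  have : (1 + 1 : F2) • v = 0 := by
    have : (1 + 1 : F2) = 0 := by decide
    rw [this, zero_smul]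
  rwa [add_smul, one_smul] at this

theorem exists_isO {n m : ℕ} (W : Submodule F2 (Fin n → F2)) [DecidableEq (W →ₗ[F2] F2)]
    (h : HasO m (⊥ : Submodule F2 (W →ₗ[F2] F2)) (Finset.univ.image (cf W))) :
    ∃ (m' : ℕ) (f : Fin m' ↪ Fin n) (C : Set (Fin n)), (∀ j, f j ∉ C) ∧
      IsO m (minor W f C) := by
  classical
  obtain ⟨Fs, f, a0, b0, c0, d0, hFS, hind, hy, hab, hac, had, hbc, hbd, hcd, hx⟩ := h
  -- sorted four vertices
  obtain ⟨a, b, c, d, h1, h2, h3, hset⟩ : ∃ a b c d : Fin m, a < b ∧ b < c ∧ c < d ∧
      ({a, b, c, d} : Finset (Fin m)) = {a0, b0, c0, d0} := by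
    have hcard : ({a0, b0, c0, d0} : Finset (Fin m)).card = 4 := by
      rw [Finset.card_insert_of_notMem (by simp [hab, hac, had]),
        Finset.card_insert_of_notMem (by simp [hbc, hbd]),
        Finset.card_insert_of_notMem (by simp [hcd]), Finset.card_singleton]
    let o := ({a0, b0, c0, d0} : Finset (Fin m)).orderEmbOfFin hcard
    refine ⟨o 0, o 1, o 2, o 3, o.strictMono (by decide), o.strictMono (by decide),
      o.strictMono (by decide), ?_⟩
    apply Finset.eq_of_subset_of_card_le
    · intro y hy
      simp only [Finset.mem_insert, Finset.mem_singleton] at hy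
      rcases hy with rfl | rfl | rfl | rfl <;> exact Finset.orderEmbOfFin_mem _ hcard _
    · rw [hcard]
      have hinj := o.injective
      rw [Finset.card_insert_of_notMem, Finset.card_insert_of_notMem,
        Finset.card_insert_of_notMem, Finset.card_singleton]
      · simp only [Finset.mem_singleton]
        exact fun h => absurd (hinj h) (by decide)
      · simp only [Finset.mem_insert, Finset.mem_singleton, not_or]
        exact ⟨fun h => absurd (hinj h) (by decide), fun h => absurd (hinj h) (by decide)⟩
      · simp only [Finset.mem_insert, Finset.mem_singleton, not_or]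
        exact ⟨fun h => absurd (hinj h) (by decide), fun h => absurd (hinj h) (by decide),
          fun h => absurd (hinj h) (by decide)⟩
  have hsum4 : ∀ {M : Type} [AddCommMonoid M] (F : Fin m → M),
      F a + F b + F c + F d = F a0 + F b0 + F c0 + F d0 := by
    intro M _ F
    have e1 : ∑ i ∈ ({a, b, c, d} : Finset (Fin m)), F i = F a + F b + F c + F d := by
      rw [Finset.sum_insert (by simp [h1.ne, (h1.trans h2).ne, (h1.trans (h2.trans h3)).ne]),
        Finset.sum_insert (by simp [h2.ne, (h2.trans h3).ne]),
        Finset.sum_insert (by simp [h3.ne]), Finset.sum_singleton]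
      abel
    have e2 : ∑ i ∈ ({a0, b0, c0, d0} : Finset (Fin m)), F i = F a0 + F b0 + F c0 + F d0 := by
      rw [Finset.sum_insert (by simp [hab, hac, had]),
        Finset.sum_insert (by simp [hbc, hbd]),
        Finset.sum_insert (by simp [hcd]), Finset.sum_singleton]
      abel
    rw [← e1, ← e2, hset]
  set U' : Submodule F2 (W →ₗ[F2] F2) := hat ⊥ (Fs : Set (W →ₗ[F2] F2)) with hU'
  -- choose the elements
  have hel : ∀ e : Option {p : Fin m × Fin m // p.1 < p.2}, ∃ x : Fin n,
      cf W x + (match e with
        | some e => f e.1.1 + f e.1.2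
        | none => f a + f b + f c + f d) ∈ U' := by
    intro e
    match e with
    | some e =>
      obtain ⟨y, hyS, hyU⟩ := hy e.1.1 e.1.2 e.2.ne
      obtain ⟨x, -, rfl⟩ := Finset.mem_image.1 hyS
      exact ⟨x, hyU⟩
    | none =>
      obtain ⟨y, hyS, hyU⟩ := hx
      obtain ⟨x, -, rfl⟩ := Finset.mem_image.1 hyS
      refine ⟨x, ?_⟩
      simp only
      rw [hsum4]
      exact hyU
  choose X hX using hel
  -- the even set of an element
  let τ : Option {p : Fin m × Fin m // p.1 < p.2} → Finset (Fin m) := fun e =>
    match e with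
    | some e => {e.1.1, e.1.2}
    | none => {a, b, c, d}
  have hτcard : ∀ e, Even (τ e).card := by
    intro e
    match e with
    | some e =>
      show Even ({e.1.1, e.1.2} : Finset (Fin m)).card
      rw [Finset.card_pair e.2.ne]
      decide
    | none =>
      show Even ({a, b, c, d} : Finset (Fin m)).card
      rw [Finset.card_insert_of_notMem
          (by simp [h1.ne, (h1.trans h2).ne, (h1.trans (h2.trans h3)).ne]),
        Finset.card_insert_of_notMem (by simp [h2.ne, (h2.trans h3).ne]),
        Finset.card_insert_of_notMem (by simp [h3.ne]), Finset.card_singleton]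
      decide
  have hτsum : ∀ e, ∑ i ∈ τ e, f i = (match e with
        | some e => f e.1.1 + f e.1.2
        | none => f a + f b + f c + f d) := by
    intro e
    match e with
    | some e =>
      show ∑ i ∈ ({e.1.1, e.1.2} : Finset (Fin m)), f i = f e.1.1 + f e.1.2
      rw [Finset.sum_pair e.2.ne]
    | none =>
      show ∑ i ∈ ({a, b, c, d} : Finset (Fin m)), f i = f a + f b + f c + f d
      rw [Finset.sum_insert (by simp [h1.ne, (h1.trans h2).ne, (h1.trans (h2.trans h3)).ne]),
        Finset.sum_insert (by simp [h2.ne, (h2.trans h3).ne]),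
        Finset.sum_insert (by simp [h3.ne]), Finset.sum_singleton]
      abel
  have hXτ : ∀ e, cf W (X e) + ∑ i ∈ τ e, f i ∈ U' := by
    intro e
    rw [hτsum]
    exact hX e
  have hτne : ∀ e, (τ e).Nonempty := by
    intro e
    match e with
    | some e => exact ⟨e.1.1, Finset.mem_insert_self _ _⟩
    | none => exact ⟨a, Finset.mem_insert_self _ _⟩
  have hτinj : ∀ e e', τ e = τ e' → e = e' := by
    intro e e' hee
    match e, e', hee with
    | some ⟨(i, j), hij⟩, some ⟨(k, l), hkl⟩, hee =>
      have hee' : ({i, j} : Finset (Fin m)) = {k, l} := hee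
      simp only at hij hkl
      have hi : i ∈ ({k, l} : Finset (Fin m)) := by rw [← hee']; simp
      have hj : j ∈ ({k, l} : Finset (Fin m)) := by rw [← hee']; simp
      simp only [Finset.mem_insert, Finset.mem_singleton] at hi hj
      rcases hi with rfl | rfl <;> rcases hj with rfl | rfl
      · exact absurd hij (lt_irrefl _)
      · rfl
      · exact absurd (hij.trans hkl) (lt_irrefl _)
      · exact absurd hij (lt_irrefl _)
    | none, none, _ => rfl
    | some e, none, hee =>
      have hee' : ({e.1.1, e.1.2} : Finset (Fin m)) = {a, b, c, d} := hee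
      have hc := congrArg Finset.card hee'
      rw [Finset.card_pair e.2.ne, Finset.card_insert_of_notMem
          (by simp [h1.ne, (h1.trans h2).ne, (h1.trans (h2.trans h3)).ne]),
        Finset.card_insert_of_notMem (by simp [h2.ne, (h2.trans h3).ne]),
        Finset.card_insert_of_notMem (by simp [h3.ne]), Finset.card_singleton] at hc
      omega
    | none, some e, hee =>
      have hee' : ({a, b, c, d} : Finset (Fin m)) = {e.1.1, e.1.2} := hee
      have hc := congrArg Finset.card hee'
      rw [Finset.card_pair e.2.ne, Finset.card_insert_of_notMem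
          (by simp [h1.ne, (h1.trans h2).ne, (h1.trans (h2.trans h3)).ne]),
        Finset.card_insert_of_notMem (by simp [h2.ne, (h2.trans h3).ne]),
        Finset.card_insert_of_notMem (by simp [h3.ne]), Finset.card_singleton] at hc
      omega
  have hXinj : Function.Injective X := by
    intro e e' hee
    by_contra hne
    have h4 := U'.add_mem (hXτ e) (hXτ e')
    rw [hee] at h4
    have h5 : cf W (X e') + ∑ i ∈ τ e, f i + (cf W (X e') + ∑ i ∈ τ e', f i) =
        ∑ i ∈ symmDiff (τ e) (τ e'), f i := by
      have e1 : ∑ i ∈ symmDiff (τ e) (τ e'), f i = ∑ i ∈ τ e, f i + ∑ i ∈ τ e', f i := by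
        have e2 : ∑ i ∈ τ e, f i = ∑ i ∈ τ e \ τ e', f i + ∑ i ∈ τ e ∩ τ e', f i := by
          rw [← Finset.sum_union (Finset.disjoint_sdiff_inter _ _), Finset.sdiff_union_inter]
        have e3 : ∑ i ∈ τ e', f i = ∑ i ∈ τ e' \ τ e, f i + ∑ i ∈ τ e ∩ τ e', f i := by
          rw [Finset.inter_comm, ← Finset.sum_union (Finset.disjoint_sdiff_inter _ _),
            Finset.sdiff_union_inter]
        have e4 : ∑ i ∈ symmDiff (τ e) (τ e'), f i =
            ∑ i ∈ τ e \ τ e', f i + ∑ i ∈ τ e' \ τ e, f i := by
          rw [← Finset.sum_union (by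
            rw [Finset.disjoint_left]
            intro y hy hy'
            exact (Finset.mem_sdiff.1 hy).2 (Finset.mem_sdiff.1 hy').1)]
          rfl
        rw [e4, e2, e3]
        have := v_add_self (∑ i ∈ τ e ∩ τ e', f i)
        calc _ = ∑ i ∈ τ e \ τ e', f i + ∑ i ∈ τ e' \ τ e, f i + 0 := by rw [add_zero]
          _ = ∑ i ∈ τ e \ τ e', f i + ∑ i ∈ τ e' \ τ e, f i +
              (∑ i ∈ τ e ∩ τ e', f i + ∑ i ∈ τ e ∩ τ e', f i) := by rw [this]
          _ = _ := by abel
      rw [e1]
      have := v_add_self (cf W (X e'))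
      calc _ = (cf W (X e') + cf W (X e')) + (∑ i ∈ τ e, f i + ∑ i ∈ τ e', f i) := by abel
        _ = _ := by rw [this, zero_add]
    rw [h5] at h4
    have hev : Even (symmDiff (τ e) (τ e')).card := by
      have e1 := Finset.card_sdiff_add_card_inter (τ e) (τ e')
      have e2 := Finset.card_sdiff_add_card_inter (τ e') (τ e)
      rw [Finset.inter_comm] at e2
      have e3 : (symmDiff (τ e) (τ e')).card = (τ e \ τ e').card + (τ e' \ τ e).card := by
        rw [← Finset.card_union_of_disjoint (by
          rw [Finset.disjoint_left]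
          intro y hy hy'
          exact (Finset.mem_sdiff.1 hy).2 (Finset.mem_sdiff.1 hy').1)]
        rfl
      have e4 := hτcard e
      have e5 := hτcard e'
      rw [Nat.even_iff] at e4 e5 ⊢
      omega
    have h6 := hind _ hev h4
    exact hne (hτinj _ _ (symmDiff_eq_bot.1 h6))
  have hnot : ∀ e, cf W (X e) ∉ U' := by
    intro e he
    have h4 : ∑ i ∈ τ e, f i ∈ U' := by
      have := U'.sub_mem (hXτ e) he
      rwa [add_sub_cancel_left] at this
    exact (hτne e).ne_empty (hind _ (hτcard e) h4)
  -- values
  have hval : ∀ p : Fin m → F2, ∃ u : W, (∀ φ ∈ U', φ u = 0) ∧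
      ∀ e, (u : Fin n → F2) (X e) = ∑ i ∈ τ e, p i := by
    intro p
    have hli : LinearIndependent F2 (fun i : {i : Fin m // i ≠ a} =>
        U'.mkQ (f i + f a)) := by
      rw [Fintype.linearIndependent_iff]
      intro co hco
      by_contra hne
      push Not at hne
      obtain ⟨i0, hi0⟩ := hne
      let T1 : Finset (Fin m) := (Finset.univ.filter fun i : {i : Fin m // i ≠ a} =>
        co i ≠ 0).map ⟨Subtype.val, Subtype.val_injective⟩
      have haT1 : a ∉ T1 := by
        intro h
        obtain ⟨y, -, hy⟩ := Finset.mem_map.1 h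
        exact y.2 hy
      have hsumT1 : ∑ i ∈ T1, (f i + f a) ∈ U' := by
        have e1 : ∑ i ∈ T1, (f i + f a) = ∑ i : {i : Fin m // i ≠ a}, co i • (f i + f a) := by
          simp only [T1]
          rw [Finset.sum_map, Finset.sum_filter]
          refine Finset.sum_congr rfl fun i _ => ?_
          rcases f2_cases (co i) with h | h
          · simp [h]
          · simp [h]
        rw [e1, ← Submodule.Quotient.mk_eq_zero, ← Submodule.mkQ_apply, map_sum]
        simpa using hco
      have hi0T : (i0 : Fin m) ∈ T1 := Finset.mem_map.2 ⟨i0, by simp [hi0], rfl⟩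
      rw [Finset.sum_add_distrib, Finset.sum_const] at hsumT1
      rcases Nat.even_or_odd T1.card with hev | hodd
      · have : T1.card • f a = 0 := by
          obtain ⟨r, hr⟩ := hev
          rw [hr, add_smul]
          exact v_add_self _
        rw [this, add_zero] at hsumT1
        have := hind T1 hev hsumT1
        rw [this] at hi0T
        simp at hi0T
      · have : T1.card • f a = f a := by
          obtain ⟨r, hr⟩ := hodd
          rw [hr, add_smul, two_mul, add_smul, v_add_self, zero_add, one_smul]
        rw [this] at hsumT1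
        have h7 : ∑ i ∈ insert a T1, f i ∈ U' := by
          rw [Finset.sum_insert haT1, add_comm]
          exact hsumT1
        have h8 : Even (insert a T1).card := by
          rw [Finset.card_insert_of_notMem haT1]
          exact hodd.add_odd odd_one
        have := hind _ h8 h7
        exact (Finset.insert_ne_empty _ _) this
    let en : Fin (Fintype.card {i : Fin m // i ≠ a}) ≃ {i : Fin m // i ≠ a} :=
      (Fintype.equivFin _).symm
    obtain ⟨u, hu, hfu⟩ := exists_value U' (fun t => f (en t) + f a)
      (hli.comp en en.injective) (fun t => p (en t) + p a)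
    refine ⟨u, hu, fun e => ?_⟩
    have hfi : ∀ i : Fin m, f i u + f a u = p i + p a := by
      intro i
      by_cases hi : i = a
      · subst hi
        rw [f2_add_self, f2_add_self]
      · have := hfu (en.symm ⟨i, hi⟩)
        simpa using this
    have h9 := hu _ (hXτ e)
    rw [LinearMap.add_apply, cf_apply, LinearMap.sum_apply] at h9
    have h10 : ∑ i ∈ τ e, f i u = ∑ i ∈ τ e, p i := by
      have e1 : ∑ i ∈ τ e, (f i u + f a u) = ∑ i ∈ τ e, (p i + p a) :=
        Finset.sum_congr rfl fun i _ => hfi i
      rw [Finset.sum_add_distrib, Finset.sum_add_distrib, Finset.sum_const, Finset.sum_const]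
        at e1
      obtain ⟨r, hr⟩ := hτcard e
      rw [hr, add_smul, add_smul, f2_add_self, f2_add_self, add_zero, add_zero] at e1
      exact e1
    rw [h10] at h9
    exact (CharTwo.add_eq_zero.1 h9)
  let g : Fin (Fintype.card (Option {p : Fin m × Fin m // p.1 < p.2})) ≃
    Option {p : Fin m × Fin m // p.1 < p.2} := (Fintype.equivFin _).symm
  have hτp : ∀ (p : Fin m → F2) e, ∑ i ∈ τ e, p i = (match e with
        | some e => p e.1.1 + p e.1.2
        | none => p a + p b + p c + p d) := by
    intro p e
    match e with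
    | some e =>
      show ∑ i ∈ ({e.1.1, e.1.2} : Finset (Fin m)), p i = p e.1.1 + p e.1.2
      rw [Finset.sum_pair e.2.ne]
    | none =>
      show ∑ i ∈ ({a, b, c, d} : Finset (Fin m)), p i = p a + p b + p c + p d
      rw [Finset.sum_insert (by simp [h1.ne, (h1.trans h2).ne, (h1.trans (h2.trans h3)).ne]),
        Finset.sum_insert (by simp [h2.ne, (h2.trans h3).ne]),
        Finset.sum_insert (by simp [h3.ne]), Finset.sum_singleton]
      abel
  refine ⟨_, ⟨fun j => X (g j), hXinj.comp g.injective⟩, {e | cf W e ∈ U'}, fun j => hnot _, g,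
    a, b, c, d, h1, h2, h3, fun w => ?_⟩
  rw [mem_minor]
  constructor
  · rintro ⟨u, hu, huC, hw⟩
    have hann : ∀ φ ∈ U', φ ⟨u, hu⟩ = 0 := by
      intro φ hφ
      rw [hU'] at hφ
      unfold hat at hφ
      rw [bot_sup_eq] at hφ
      refine Submodule.span_induction ?_ ?_ ?_ ?_ hφ
      · intro y hy
        obtain ⟨e, -, rfl⟩ := Finset.mem_image.1 (hFS hy)
        refine huC e ?_
        show cf W e ∈ U'
        rw [hU']
        unfold hat
        exact Submodule.mem_sup_right (Submodule.subset_span hy)
      · rfl
      · intro a b _ _ ha hb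
        rw [LinearMap.add_apply, ha, hb, add_zero]
      · intro r a _ ha
        rw [LinearMap.smul_apply, ha, smul_zero]
    refine ⟨fun i => f i ⟨u, hu⟩, fun x => ?_⟩
    rw [hw x]
    have h4 := hann _ (hXτ (g x))
    rw [LinearMap.add_apply, cf_apply, LinearMap.sum_apply] at h4
    have h5 := CharTwo.add_eq_zero.1 h4
    exact h5.trans (hτp (fun i => f i ⟨u, hu⟩) (g x))
  · rintro ⟨p, hp⟩
    obtain ⟨u, hu0, hu⟩ := hval p
    refine ⟨u, u.2, fun e he => hu0 _ he, fun x => ?_⟩
    exact (hp x).trans ((hτp p (g x)).symm.trans (hu (g x)).symm)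

end Pool.Agent.Helper39.HCI
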