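import Pool.Agent.Helper39.TC.Rank
import Pool.Agent.HC.Defs
import Pool.Agent.HC.Lv2D
import Pool.Agent.HC.Gr2

/-! In a highly connected matroid the small sets of small connectivity are tiny. -/

namespace Pool.Agent.Helper39.HCI

open Finset Module
open Pool.Agent.Helper39.TC (cf cf_apply span_cf rk rst rk_def rk_univ TutteConn)
open Pool.Agent.HC (F2 pr hat guts lam GrL rq QSmall grL_of_card_le_three)

variable {n : ℕ} (W : Submodule F2 (Fin n → F2))

lemma span_cf_image (X : Finset (Fin n)) :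
    Submodule.span F2 (cf W '' (X : Set (Fin n))) =
      (LinearMap.ker ((rst X : (Fin n → F2) →ₗ[F2] (X → F2)).domRestrict W)).dualAnnihilator := by
  apply le_antisymm
  · rw [Submodule.span_le]
    rintro _ ⟨x, hx, rfl⟩
    rw [SetLike.mem_coe, Submodule.mem_dualAnnihilator]
    intro w hw
    exact congrFun (LinearMap.mem_ker.1 hw) ⟨x, hx⟩
  · intro ψ hψ
    rw [Submodule.mem_dualAnnihilator] at hψ
    have h1 : ψ ∈ Submodule.span F2 (Set.range fun x : X => cf W (x : Fin n)) := by
      refine mem_span_of_iInf_ker_le_ker ?_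
      intro w hw
      rw [LinearMap.mem_ker]
      apply hψ
      rw [LinearMap.mem_ker]
      funext x
      exact LinearMap.mem_ker.1 ((Submodule.mem_iInf _).1 hw x)
    refine Submodule.span_mono ?_ h1
    rintro _ ⟨x, rfl⟩
    exact ⟨x, x.2, rfl⟩

lemma finrank_span_cf (X : Finset (Fin n)) :
    finrank F2 (Submodule.span F2 (cf W '' (X : Set (Fin n)))) = rk W X := by
  rw [span_cf_image]
  have h1 := LinearMap.finrank_range_add_finrank_ker
    ((rst X : (Fin n → F2) →ₗ[F2] (X → F2)).domRestrict W)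
  have h2 := Subspace.finrank_add_finrank_dualAnnihilator_eq
    (LinearMap.ker ((rst X : (Fin n → F2) →ₗ[F2] (X → F2)).domRestrict W))
  rw [LinearMap.range_domRestrict, ← rk_def] at h1
  refine Nat.add_left_cancel (n := finrank F2 (LinearMap.ker
    ((rst X : (Fin n → F2) →ₗ[F2] (X → F2)).domRestrict W))) ?_
  refine Eq.trans ?_ (h1.symm.trans (add_comm _ _))
  exact h2

lemma hat_bot (T : Set (W →ₗ[F2] F2)) :
    hat (⊥ : Submodule F2 (W →ₗ[F2] F2)) T = Submodule.span F2 T := by
  unfold hat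
  rw [bot_sup_eq]

theorem lam_eq [DecidableEq (W →ₗ[F2] F2)] (hinj : Function.Injective (cf W))
    (X : Finset (Fin n)) :
    lam (⊥ : Submodule F2 (W →ₗ[F2] F2)) (Finset.univ.image (cf W)) (X.image (cf W)) +
      rk W Finset.univ = rk W X + rk W Xᶜ := by
  have hc : Finset.univ.image (cf W) \ X.image (cf W) = Xᶜ.image (cf W) := by
    ext ψ
    simp only [Finset.mem_sdiff, Finset.mem_image, Finset.mem_univ, true_and, Finset.mem_compl]
    constructor
    · rintro ⟨⟨x, rfl⟩, hx⟩
      exact ⟨x, fun h => hx ⟨x, h, rfl⟩, rfl⟩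
    · rintro ⟨x, hx, rfl⟩
      exact ⟨⟨x, rfl⟩, fun ⟨y, hy, h⟩ => hx (hinj h ▸ hy)⟩
  unfold lam guts
  rw [hc, hat_bot, hat_bot, finrank_bot, Nat.sub_zero, Finset.coe_image, Finset.coe_image]
  have h1 := Submodule.finrank_sup_add_finrank_inf_eq
    (Submodule.span F2 (cf W '' (X : Set (Fin n))))
    (Submodule.span F2 (cf W '' ((Xᶜ : Finset (Fin n)) : Set (Fin n))))
  have h2 : Submodule.span F2 (cf W '' (X : Set (Fin n))) ⊔
      Submodule.span F2 (cf W '' ((Xᶜ : Finset (Fin n)) : Set (Fin n))) = ⊤ := by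
    rw [← Submodule.span_union, ← Set.image_union, ← span_cf W]
    congr 1
    rw [Finset.coe_compl, Set.union_compl_self, Set.image_univ]
  rw [h2, finrank_top, finrank_span_cf, finrank_span_cf] at h1
  have h3 : finrank F2 (W →ₗ[F2] F2) = finrank F2 W :=
    Subspace.dual_finrank_eq (K := F2) (V := W)
  rw [rk_univ]
  omega

/-- a set of elements missing at most two of the edges has large rank -/
lemma rq_big {V : Type} [DecidableEq V] {N : ℕ} (hN : 9 ≤ N) (q : Fin N → Fin N → V)
    (S X : Finset V) (hq : ∀ i j, i ≠ j → q i j ∈ S)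
    (hinj : ∀ i j k l, i ≠ j → k ≠ l → q i j = q k l → (i = k ∧ j = l) ∨ (i = l ∧ j = k))
    (hX : (S \ X).card ≤ 2) : 4 ≤ rq q X := by
  classical
  let tch : Finset (Fin N) := Finset.univ.filter fun i => ∃ j, i ≠ j ∧ q i j ∈ S \ X
  have htch : tch.card ≤ 4 := by
    have hsub : tch ⊆ (S \ X).biUnion fun y => Finset.univ.filter fun i => ∃ j, i ≠ j ∧ q i j = y := by
      intro i hi
      obtain ⟨j, hij, hj⟩ := (Finset.mem_filter.1 hi).2
      exact Finset.mem_biUnion.2 ⟨q i j, hj, Finset.mem_filter.2 ⟨Finset.mem_univ _, j, hij, rfl⟩⟩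
    have h2 : ∀ y ∈ S \ X,
        (Finset.univ.filter fun i : Fin N => ∃ j, i ≠ j ∧ q i j = y).card ≤ 2 := by
      intro y _
      by_cases hne : ∃ i j, i ≠ j ∧ q i j = y
      · obtain ⟨i, j, hij, hy⟩ := hne
        have : (Finset.univ.filter fun i : Fin N => ∃ j, i ≠ j ∧ q i j = y) ⊆ {i, j} := by
          intro k hk
          obtain ⟨l, hkl, hl⟩ := (Finset.mem_filter.1 hk).2
          rcases hinj k l i j hkl hij (hl.trans hy.symm) with h | h
          · rw [h.1]; simp
          · rw [h.1]; simp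
        exact (Finset.card_le_card this).trans Finset.card_le_two
      · have : (Finset.univ.filter fun i : Fin N => ∃ j, i ≠ j ∧ q i j = y) = ∅ := by
          rw [Finset.filter_eq_empty_iff]
          intro i _ hi
          exact hne ⟨i, hi⟩
        rw [this]; simp
    calc tch.card ≤ _ := Finset.card_le_card hsub
      _ ≤ (S \ X).card * 2 := Finset.card_biUnion_le_card_mul _ _ _ h2
      _ ≤ 4 := by omega
  have hun : 5 ≤ tchᶜ.card := by
    rw [Finset.card_compl, Fintype.card_fin]
    omega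
  obtain ⟨T, hT, hTc⟩ := Finset.exists_subset_card_eq hun
  let a : Fin 5 → Fin N := fun t => T.orderEmbOfFin hTc t
  have ha : Function.Injective a := (T.orderEmbOfFin hTc).injective
  have haT : ∀ t, a t ∉ tch := by
    intro t h
    exact (Finset.mem_compl.1 (hT (Finset.orderEmbOfFin_mem T hTc t))) h
  let v : Fin 4 → (Fin N → F2) := fun t => pr (a 0) (a t.succ)
  have hne : ∀ t : Fin 4, a 0 ≠ a t.succ := fun t h => (Fin.succ_ne_zero t) (ha h).symm
  have hv : ∀ t, v t ∈ Submodule.span F2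
      {y : Fin N → F2 | ∃ i j, i ≠ j ∧ q i j ∈ X ∧ y = pr i j} := by
    intro t
    apply Submodule.subset_span
    refine ⟨a 0, a t.succ, hne t, ?_, rfl⟩
    by_contra hnX
    exact haT 0 (Finset.mem_filter.2 ⟨Finset.mem_univ _, a t.succ, hne t,
      Finset.mem_sdiff.2 ⟨hq _ _ (hne t), hnX⟩⟩)
  have hli : LinearIndependent F2 v := by
    rw [Fintype.linearIndependent_iff]
    intro c hc t
    have h1 := congrFun hc (a t.succ)
    rw [Finset.sum_apply, Finset.sum_eq_single t] at h1
    · simpa [v, pr, Pi.single_eq_of_ne (hne t).symm] using h1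
    · intro s _ hst
      have h2 : a t.succ ≠ a s.succ := fun h => hst (Fin.succ_injective _ (ha h)).symm
      simp [v, pr, Pi.single_eq_of_ne (hne t).symm, Pi.single_eq_of_ne h2]
    · intro h; exact absurd (Finset.mem_univ _) h
  have h3 : finrank F2 (Submodule.span F2 (Set.range v)) = 4 := by
    rw [finrank_span_eq_card hli, Fintype.card_fin]
  unfold rq
  rw [← h3]
  apply Submodule.finrank_mono
  rw [Submodule.span_le]
  rintro _ ⟨t, rfl⟩
  exact hv t

theorem gl_of_conn [DecidableEq (W →ₗ[F2] F2)] (hinj : Function.Injective (cf W)) {k N : ℕ}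
    (hk : 4 ≤ k) (hconn : TutteConn k W) (hN : 9 ≤ N)
    (q : Fin N → Fin N → (W →ₗ[F2] F2))
    (hq : ∀ i j, i ≠ j → q i j ∈ Finset.univ.image (cf W))
    (hqinj : ∀ i j k l, i ≠ j → k ≠ l → q i j = q k l → (i = k ∧ j = l) ∨ (i = l ∧ j = k))
    (X : Finset (W →ₗ[F2] F2)) (hX : QSmall (Finset.univ.image (cf W)) q X)
    (hlam : lam ⊥ (Finset.univ.image (cf W)) X ≤ 2) :
    GrL ⊥ (Finset.univ.image (cf W)) X := by
  classical
  obtain ⟨hXS, hr⟩ := hX
  let X' : Finset (Fin n) := Finset.univ.filter fun x => cf W x ∈ X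
  have hXX : X'.image (cf W) = X := by
    ext ψ
    constructor
    · intro h
      obtain ⟨x, hx, rfl⟩ := Finset.mem_image.1 h
      exact (Finset.mem_filter.1 hx).2
    · intro h
      obtain ⟨x, -, rfl⟩ := Finset.mem_image.1 (hXS h)
      exact Finset.mem_image.2 ⟨x, Finset.mem_filter.2 ⟨Finset.mem_univ _, h⟩, rfl⟩
  have hcard : X.card = X'.card := by
    rw [← hXX, Finset.card_image_of_injective _ hinj]
  have hcc : (Finset.univ.image (cf W) \ X).card = X'ᶜ.card := by
    have : Finset.univ.image (cf W) \ X = X'ᶜ.image (cf W) := by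
      ext ψ
      simp only [Finset.mem_sdiff, Finset.mem_image, Finset.mem_univ, true_and,
        Finset.mem_compl]
      constructor
      · rintro ⟨⟨x, rfl⟩, hx⟩
        exact ⟨x, fun h => hx (Finset.mem_filter.1 h).2, rfl⟩
      · rintro ⟨x, hx, rfl⟩
        exact ⟨⟨x, rfl⟩, fun h => hx (Finset.mem_filter.2 ⟨Finset.mem_univ _, h⟩)⟩
    rw [this, Finset.card_image_of_injective _ hinj]
  apply grL_of_card_le_three _ hlam
  by_contra hc
  push Not at hc
  have h1 : 3 ≤ X'ᶜ.card := by
    by_contra h2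
    have h3 := rq_big hN q _ X hq hqinj (by rw [hcc]; omega)
    omega
  have h4 := hconn 3 (by omega) X' (by omega) h1
  have h5 := lam_eq W hinj X'
  rw [hXX] at h5
  omega

end Pool.Agent.Helper39.HCI
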