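import Pool.Agent.HC.Lv2
import Pool.Agent.Helper39.HCI.Dual
import Pool.Agent.Helper39.HCI.Frame
import Pool.Agent.Helper39.HCI.Small
import Pool.Agent.Helper39.HCI.Clq
import Pool.Agent.Helper39.HCI.OMin

/-! Highly connected binary matroids without `O_m` and without the dual of `O_m`. -/

namespace Pool.Agent.Helper39.HCI

open Finset Module
open Pool.Agent.Helper39.TC
open Pool.Agent.HC (F2 hat IsQ HasO Hyp2 level_two)

lemma isQ_inj {V : Type} [AddCommGroup V] [Module F2 V] [DecidableEq V] {K : Submodule F2 V}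
    {S : Finset V} {N : ℕ} {C : Finset V} {g : Fin N → V} {q : Fin N → Fin N → V}
    (h : IsQ K S C g q) (i j k l : Fin N) (hij : i ≠ j) (hkl : k ≠ l) (he : q i j = q k l) :
    (i = k ∧ j = l) ∨ (i = l ∧ j = k) := by
  classical
  have h1 := (hat K (C : Set V)).add_mem (h.qg i j hij) (h.qg k l hkl)
  rw [he] at h1
  have h2 : q k l + (g i + g j) + (q k l + (g k + g l)) = g i + g j + (g k + g l) := by
    have := v_add_self (q k l)
    calc _ = (q k l + q k l) + (g i + g j + (g k + g l)) := by abel
      _ = _ := by rw [this, zero_add]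
  rw [h2] at h1
  by_cases hik : i = k
  · subst hik
    left
    refine ⟨rfl, ?_⟩
    by_contra hjl
    have h3 : g i + g j + (g i + g l) = ∑ x ∈ ({j, l} : Finset (Fin N)), g x := by
      rw [Finset.sum_pair hjl]
      have := v_add_self (g i)
      calc _ = (g i + g i) + (g j + g l) := by abel
        _ = _ := by rw [this, zero_add]
    rw [h3] at h1
    have := h.gind {j, l} (by rw [Finset.card_pair hjl]; decide) h1
    exact (Finset.insert_ne_empty _ _) this
  · by_cases hil : i = l
    · subst hil
      right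
      refine ⟨rfl, ?_⟩
      by_contra hjk
      have h3 : g i + g j + (g k + g i) = ∑ x ∈ ({j, k} : Finset (Fin N)), g x := by
        rw [Finset.sum_pair hjk]
        have := v_add_self (g i)
        calc _ = (g i + g i) + (g j + g k) := by abel
          _ = _ := by rw [this, zero_add]
      rw [h3] at h1
      have := h.gind {j, k} (by rw [Finset.card_pair hjk]; decide) h1
      exact (Finset.insert_ne_empty _ _) this
    · exfalso
      by_cases hjk : j = k
      · subst hjk
        have h3 : g i + g j + (g j + g l) = ∑ x ∈ ({i, l} : Finset (Fin N)), g x := by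
          rw [Finset.sum_pair hil]
          have := v_add_self (g j)
          calc _ = (g j + g j) + (g i + g l) := by abel
            _ = _ := by rw [this, zero_add]
        rw [h3] at h1
        have := h.gind {i, l} (by rw [Finset.card_pair hil]; decide) h1
        exact (Finset.insert_ne_empty _ _) this
      · by_cases hjl : j = l
        · subst hjl
          have h3 : g i + g j + (g k + g j) = ∑ x ∈ ({i, k} : Finset (Fin N)), g x := by
            rw [Finset.sum_pair hik]
            have := v_add_self (g j)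
            calc _ = (g j + g j) + (g i + g k) := by abel
              _ = _ := by rw [this, zero_add]
          rw [h3] at h1
          have := h.gind {i, k} (by rw [Finset.card_pair hik]; decide) h1
          exact (Finset.insert_ne_empty _ _) this
        · have h3 : g i + g j + (g k + g l) =
              ∑ x ∈ ({i, j, k, l} : Finset (Fin N)), g x := by
            rw [Finset.sum_insert (by simp [hij, hik, hil]),
              Finset.sum_insert (by simp [hjk, hjl]), Finset.sum_pair hkl]
            abel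
          rw [h3] at h1
          have := h.gind {i, j, k, l} (by
            rw [Finset.card_insert_of_notMem (by simp [hij, hik, hil]),
              Finset.card_insert_of_notMem (by simp [hjk, hjl]), Finset.card_pair hkl]
            decide) h1
          exact (Finset.insert_ne_empty _ _) this

lemma cf_injective {n k : ℕ} (W : Submodule F2 (Fin n → F2)) (hk : 3 ≤ k) (hn : 2 * k ≤ n)
    (hW : TutteConn k W) : Function.Injective (cf W) := by
  classical
  intro x y hxy
  by_contra hne
  let c : Fin n → F2 := Pi.single x 1 + Pi.single y 1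
  have hc : c ∈ dual W := by
    intro u hu
    have h1 := congrArg (fun ψ => ψ ⟨u, hu⟩) hxy
    simp only [cf_apply] at h1
    simp only [c, Pi.add_apply, mul_add, Finset.sum_add_distrib]
    rw [Finset.sum_eq_single x, Finset.sum_eq_single y]
    · rw [Pi.single_eq_same, Pi.single_eq_same, mul_one, mul_one, h1, f2_add_self]
    · intro j _ hj; rw [Pi.single_eq_of_ne hj, mul_zero]
    · intro h; exact absurd (Finset.mem_univ _) h
    · intro j _ hj; rw [Pi.single_eq_of_ne hj, mul_zero]
    · intro h; exact absurd (Finset.mem_univ _) h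
  have hc0 : c ≠ 0 := by
    intro h
    have := congrFun h x
    simp [c, Pi.single_eq_of_ne hne] at this
  have h1 := girth_of_conn W hn hW c hc hc0
  have h2 : supp c ⊆ {x, y} := by
    intro j hj
    have hj' := (Finset.mem_filter.1 hj).2
    simp only [Finset.mem_insert, Finset.mem_singleton]
    by_contra hcon
    push Not at hcon
    apply hj'
    simp [c, Pi.single_eq_of_ne hcon.1, Pi.single_eq_of_ne hcon.2]
  have h3 := (Finset.card_le_card h2).trans Finset.card_le_two
  omega

lemma minor_minor {a b n : ℕ} {F : Type} [Field F] (U : Submodule F (Fin n → F))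
    (f : Fin b ↪ Fin n)
    (C : Set (Fin n)) (g : Fin a ↪ Fin b) (D : Set (Fin b)) :
    minor (minor U f C) g D = minor U (g.trans f) (C ∪ f '' D) := by
  ext w
  constructor
  · rintro ⟨u, ⟨v, hv, h1, h2⟩, h3, h4⟩
    refine ⟨v, hv, ?_, fun j => ?_⟩
    · rintro _ (hc | ⟨d, hd, rfl⟩)
      · exact h1 _ hc
      · rw [← h2 d]
        exact h3 d hd
    · rw [h4 j, h2]
      rfl
  · rintro ⟨v, hv, h1, h2⟩
    exact ⟨fun j => v (f j), ⟨v, hv, fun c hc => h1 c (Or.inl hc), fun j => rfl⟩,
      fun d hd => h1 _ (Or.inr ⟨d, hd, rfl⟩), fun j => h2 j⟩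

/-- the minors of `U` -/
def minorsOf {n : ℕ} {F : Type} [Field F] (U : Submodule F (Fin n → F)) : MClass F :=
  fun n' W => ∃ (f : Fin n' ↪ Fin n) (C : Set (Fin n)), (∀ j, f j ∉ C) ∧ W = minor U f C

lemma minorsOf_closed {n : ℕ} {F : Type} [Field F] (U : Submodule F (Fin n → F)) :
    MinorClosed (minorsOf U) := by
  rintro n' W ⟨f, C, hfC, rfl⟩ m g D hgD
  refine ⟨g.trans f, C ∪ f '' D, fun j => ?_, minor_minor U f C g D⟩
  rintro (h | ⟨d, hd, he⟩)
  · exact hfC _ h
  · have : d = g j := f.injective he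
    exact hgD j (this ▸ hd)

lemma self_minor {n : ℕ} {F : Type} [Field F] (U : Submodule F (Fin n → F)) :
    minorsOf U n U := by
  refine ⟨Function.Embedding.refl _, ∅, fun j => by simp, ?_⟩
  ext w
  constructor
  · intro hw
    exact ⟨w, hw, fun c hc => absurd hc (by simp), fun j => rfl⟩
  · rintro ⟨u, hu, -, h⟩
    have : w = u := funext h
    rwa [this]

theorem tutteConn_mono {n k l : ℕ} {F : Type} [Field F] {U : Submodule F (Fin n → F)}
    (h : TutteConn k U) (hl : l ≤ k) : TutteConn l U :=
  fun ℓ hℓ X h1 h2 => h ℓ (lt_of_lt_of_le hℓ hl) X h1 h2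

/-- one side: a clique minor and no `O_m`-minor -/
theorem core (m : ℕ) (hm : 4 ≤ m) : ∃ N0 : ℕ, ∀ N, N0 ≤ N → ∀ (n k : ℕ), 4 ≤ k → 2 * k ≤ n →
    ∀ W : Submodule F2 (Fin n → F2), TutteConn k W →
    ∀ (m' : ℕ) (f : Fin m' ↪ Fin n) (C : Set (Fin n)), IsClique N (minor W f C) →
    (∀ (m' : ℕ) (f : Fin m' ↪ Fin n) (C : Set (Fin n)), (∀ j, f j ∉ C) →
      ¬ IsO m (minor W f C)) → IsFrame W := by
  classical
  obtain ⟨N0, h0⟩ := level_two m hm
  refine ⟨max N0 9, fun N hN n k hk hn W hW m' f C hcl hno => ?_⟩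
  have hinj := cf_injective W (by omega) hn hW
  obtain ⟨C', g, q, hq⟩ := exists_isQ (by have := le_max_right N0 9; omega) W f C hcl
  have hgr := h0 N ((le_max_left _ _).trans hN) (W →ₗ[F2] F2) ⊥ (Finset.univ.image (cf W)) C' g q
    { isq := hq
      no := by
        intro h
        obtain ⟨m1, f1, C1, h1, h2⟩ := exists_isO W h
        exact hno m1 f1 C1 h1 h2
      gl := fun X hX hl => gl_of_conn W hinj hk hW ((le_max_right _ _).trans hN) q hq.qS
        (fun i j k l => isQ_inj hq i j k l) X hX hl }
  apply isFrame_of_graphic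
  have : ((Finset.univ.image (cf W) : Finset (W →ₗ[F2] F2)) : Set (W →ₗ[F2] F2)) =
      Set.range (cf W) := by
    rw [Finset.coe_image, Finset.coe_univ, Set.image_univ]
  rwa [this] at hgr

/-- Highly connected members of a minor-closed class of binary matroids without `O_m` and
without the dual of `O_m` are graphic or cographic. -/
theorem main (m : ℕ) (hm : 4 ≤ m) : ∃ k : ℕ, ∀ 𝓜 : MClass F2, MinorClosed 𝓜 →
    (∀ (n : ℕ) (U : Submodule F2 (Fin n → F2)), 𝓜 n U → ¬ IsO m U) →
    (∀ (n : ℕ) (U : Submodule F2 (Fin n → F2)), 𝓜 n U → ¬ IsO m (dual U)) →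
    (∀ (n : ℕ) (U : Submodule F2 (Fin n → F2)), 𝓜 n U → TutteConn k U → 2 * k ≤ n →
      IsFrame U ∨ IsFrame (dual U)) ∧ HasStructure 𝓜 := by
  classical
  obtain ⟨N, hN⟩ := core m hm
  obtain ⟨k0, hk0⟩ := final F2 N
  have main : ∀ 𝓜 : MClass F2, MinorClosed 𝓜 →
      (∀ (n : ℕ) (U : Submodule F2 (Fin n → F2)), 𝓜 n U → ¬ IsO m U) →
      (∀ (n : ℕ) (U : Submodule F2 (Fin n → F2)), 𝓜 n U → ¬ IsO m (dual U)) →
      (∀ (n : ℕ) (U : Submodule F2 (Fin n → F2)), 𝓜 n U → TutteConn (max k0 4) U →
        2 * (max k0 4) ≤ n → IsFrame U ∨ IsFrame (dual U)) := by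
    intro 𝓜 hcl h1 h2 n U hU hconn hn
    have hk4 : 4 ≤ max k0 4 := le_max_right _ _
    by_contra hcon
    push Not at hcon
    have hno : ∀ (n' : ℕ) (W : Submodule F2 (Fin n' → F2)), minorsOf U n' W →
        ¬ IsClique N W := by
      rintro n' W ⟨f, C, hfC, rfl⟩ hc
      exact hcon.1 (hN N le_rfl n _ hk4 hn U hconn n' f C hc
        (fun m' f' C' hf' => h1 _ _ (hcl n U hU m' f' C' hf')))
    have hno' : ∀ (n' : ℕ) (W : Submodule F2 (Fin n' → F2)), minorsOf U n' W →
        ¬ IsClique N (dual W) := by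
      rintro n' W ⟨f, C, hfC, rfl⟩ hc
      rw [dual_minor U f C hfC] at hc
      refine hcon.2 (hN N le_rfl n _ hk4 hn (dual U) (tutteConn_dual hconn) n' f _ hc
        (fun m' f' C' hf' hO => ?_))
      have h3 : minor (dual U) f' C' = dual (minor U f' (coSet f' C')) := by
        have h4 := dual_minor (dual U) f' C' hf'
        rw [dual_dual] at h4
        rw [← h4, dual_dual]
      rw [h3] at hO
      exact h2 _ _ (hcl n U hU m' f' _ (fun j hj => hj.1 ⟨j, rfl⟩)) hO
    have h5 := (hk0 (minorsOf U) (minorsOf_closed U) hno hno').1 n U (self_minor U)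
      (tutteConn_mono hconn (le_max_left _ _))
    have h6 : k0 ≤ max k0 4 := le_max_left _ _
    omega
  refine ⟨max k0 4, fun 𝓜 hcl h1 h2 => ⟨main 𝓜 hcl h1 h2, max k0 4, 2 * max k0 4,
    fun n U hU hconn => ?_⟩⟩
  rcases le_or_gt (2 * max k0 4) n with hn | hn
  · obtain ⟨A, hA⟩ := exists_rowSpace U
    refine ⟨U, ⟨n, A, 0, hA, ?_, by rw [add_zero]; exact hA⟩, ?_⟩
    · simp
    · rcases main 𝓜 hcl h1 h2 n U hU hconn hn with h | h
      · exact Or.inl h
      · exact Or.inr (Or.inl h)
  · exact small_structure U hn.le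

end Pool.Agent.Helper39.HCI
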